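import Pool.Agent.Work.MP_5e2fde_an.Cheb

set_option autoImplicit false

open Polynomial Filter Pool.Agent.Work.MP_5e2fde_an

namespace Pool.Agent.Results.MP_5e2fde_an.ThreeSuffices

/-- The real polynomial `p` has only real zeros. -/
def OnlyRealZeros (p : ℝ[X]) : Prop := ∀ z : ℂ, aeval z p = 0 → z.im = 0

/-- The Laguerre-Polya class: limits, uniformly on compact subsets of `ℂ`, of real polynomials
having only real zeros. -/
def LaguerrePolya (f : ℂ → ℂ) : Prop :=
  ∃ P : ℕ → ℝ[X], (∀ n, OnlyRealZeros (P n)) ∧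
    ∀ K : Set ℂ, IsCompact K → TendstoUniformlyOn (fun n z => aeval z (P n)) f atTop K

/-- The functions in the Laguerre-Polya class which are given on `ℂ` by a power series with
non-negative coefficients. -/
def LaguerrePolyaPlus (f : ℂ → ℂ) : Prop :=
  LaguerrePolya f ∧ ∃ a : ℕ → ℝ, (∀ k, 0 ≤ a k) ∧ ∀ z : ℂ, HasSum (fun k => (a k : ℂ) * z ^ k) (f z)

/-- The function `F_{s,m}(z) = ∑ k^s / (k!)^m z^k`. -/
noncomputable def F (s : ℝ) (m : ℕ) (z : ℂ) : ℂ :=
  ∑' k : ℕ, (((k : ℝ) ^ s / (k.factorial : ℝ) ^ m : ℝ) : ℂ) * z ^ k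

lemma onlyRealZeros_of_rr {A : ℝ[X]} (h : RR A) : OnlyRealZeros A := by
  intro z hz
  have h1 : ¬ 0 < z.im := by
    intro hz'
    apply h z hz'
    rw [eval_map_algebraMap]
    exact hz
  have h2 : ¬ 0 < (starRingEnd ℂ z).im := by
    intro hz'
    apply h _ hz'
    rw [eval_map_algebraMap, aeval_conj, hz, map_zero]
  rw [Complex.conj_im] at h2
  linarith

lemma coeff_summable (s : ℝ) (m : ℕ) (hm : 1 ≤ m) (R : ℝ) (hR : 0 ≤ R) :
    Summable (fun k : ℕ => (k : ℝ) ^ s / (k.factorial : ℝ) ^ m * R ^ k) := by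
  obtain ⟨N, hN⟩ := exists_nat_ge s
  have h1 : Summable (fun k : ℕ => (N.factorial : ℝ) * ((Real.exp 1 * R) ^ k / (k.factorial : ℝ))) :=
    (Real.summable_pow_div_factorial _).mul_left _
  have h2 : Summable (fun k : ℕ => (if k = 0 then (0 : ℝ) ^ s else 0) + (N.factorial : ℝ) * ((Real.exp 1 * R) ^ k / (k.factorial : ℝ))) := by
    apply Summable.add _ h1
    apply summable_of_ne_finset_zero (s := {0})
    intro b hb
    simp only [Finset.mem_singleton] at hb
    simp [hb]
  refine Summable.of_nonneg_of_le (fun k => by positivity) (fun k => ?_) h2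
  rcases Nat.eq_zero_or_pos k with rfl | hk
  · simp
  · have hk1 : (1 : ℝ) ≤ k := by exact_mod_cast hk
    have h3 : (k : ℝ) ^ s ≤ (k : ℝ) ^ N := by
      rw [← Real.rpow_natCast]
      exact Real.rpow_le_rpow_of_exponent_le hk1 hN
    have h4 : (k : ℝ) ^ N ≤ N.factorial * Real.exp 1 ^ k := by
      have := Real.pow_div_factorial_le_exp (k : ℝ) (by positivity) N
      rw [div_le_iff₀ (by positivity)] at this
      rw [← Real.exp_nat_mul, mul_one]
      linarith
    have h5 : (k.factorial : ℝ) ≤ (k.factorial : ℝ) ^ m := by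
      have h6 : (1 : ℝ) ≤ k.factorial := by exact_mod_cast k.factorial_pos
      calc (k.factorial : ℝ) = (k.factorial : ℝ) ^ 1 := (pow_one _).symm
        _ ≤ (k.factorial : ℝ) ^ m := pow_le_pow_right₀ h6 hm
    have hk0 : k ≠ 0 := by omega
    have h7 : (0 : ℝ) < k.factorial := by exact_mod_cast k.factorial_pos
    rw [if_neg hk0, zero_add]
    calc (k : ℝ) ^ s / (k.factorial : ℝ) ^ m * R ^ k
        ≤ (N.factorial * Real.exp 1 ^ k) / (k.factorial : ℝ) * R ^ k := by
          apply mul_le_mul_of_nonneg_right _ (by positivity)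
          apply div_le_div₀ (by positivity) (h3.trans h4) h7 h5
      _ = (N.factorial : ℝ) * ((Real.exp 1 * R) ^ k / (k.factorial : ℝ)) := by
          rw [mul_pow]; ring

/-- the coefficients of the approximating polynomials -/
noncomputable def cf (s : ℝ) (m : ℕ) (k : ℕ) : ℝ :=
  (k : ℝ) ^ s * ((1 / (k.factorial : ℝ)) ^ (m - 3) * beta k)

lemma cf_mul (s : ℝ) (m : ℕ) (hm : 3 ≤ m) (n k : ℕ) :
    cf s m k * (wt n k / ((2 * k).factorial : ℝ)) = (k : ℝ) ^ s / (k.factorial : ℝ) ^ m * wt n k := by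
  unfold cf beta
  have h1 : ((2 * k).factorial : ℝ) ≠ 0 := by exact_mod_cast (2 * k).factorial_ne_zero
  have h2 : (k.factorial : ℝ) ≠ 0 := by exact_mod_cast k.factorial_ne_zero
  obtain ⟨j, rfl⟩ : ∃ j, m = j + 3 := ⟨m - 3, by omega⟩
  rw [Nat.add_sub_cancel, one_div, inv_pow, pow_add]
  field_simp

lemma rr_act_inv_factorial_pow {A : ℝ[X]} (h : RR A) (j : ℕ) :
    RR (act (fun k => (1 / (k.factorial : ℝ)) ^ j) A) := by
  induction j with
  | zero =>
    simp only [pow_zero]
    exact h.act_const 1 one_ne_zero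
  | succ j ih =>
    have := ih.act_inv_factorial
    rw [act_act] at this
    convert this using 2
    ext k
    rw [pow_succ]
    ring

/-- multiplication of the coefficients by `k^l` -/
lemma rr_act_pow_nat (n : ℕ) (hn : 1 ≤ n) (f : ℕ → ℝ) (hf : ∀ k, 1 ≤ k → f k ≠ 0)
    (h : RR (act f (CN n))) (l : ℕ) : RR (act (fun k => (k : ℝ) ^ l * f k) (CN n)) := by
  induction l with
  | zero =>
    simp only [pow_zero, one_mul]
    exact h
  | succ l ih =>
    have hdeg : 0 < (act (fun k => (k : ℝ) ^ l * f k) (CN n)).natDegree := by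
      refine lt_of_lt_of_le hn (le_natDegree_of_ne_zero ?_)
      rw [coeff_act, coeff_CN n n hn]
      have h1 := wt_pos n n hn le_rfl
      have h2 := hf n hn
      have h3 : (n : ℝ) ≠ 0 := by
        have : n ≠ 0 := by omega
        exact_mod_cast this
      have h4 : ((2 * n).factorial : ℝ) ≠ 0 := by exact_mod_cast (2 * n).factorial_ne_zero
      exact mul_ne_zero (mul_ne_zero (pow_ne_zero _ h3) h2) (div_ne_zero h1.ne' h4)
    have := ih.act_add 0 le_rfl (Or.inl hdeg)
    rw [act_act] at this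
    convert this using 2
    ext k
    rw [pow_succ]
    ring

/-- The key step: multiplication of the coefficients of the rescaled Chebyshev polynomials by
`k^s`. -/
lemma rr_rpow (n : ℕ) (hn : 1 ≤ n) {s : ℝ} (hs : 0 < s) :
    RR (act (fun k => (k : ℝ) ^ s) (CN n)) := by
  have hl := Nat.floor_le hs.le
  have hl' := Nat.lt_floor_add_one s
  set l := ⌊s⌋₊ with hldef
  rcases hl.eq_or_lt with h | h
  · -- integer case
    have h1 : RR (act (fun _ => (1 : ℝ)) (CN n)) := (rr_CN n hn).act_const 1 one_ne_zero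
    have h2 := rr_act_pow_nat n hn (fun _ => (1 : ℝ)) (fun _ _ => one_ne_zero) h1 l
    convert h2 using 2
    ext k
    rw [mul_one, ← h, Real.rpow_natCast]
  · have h1 := rr_act_rpow_CN n hn (s := s - l) (by linarith) (by linarith)
    have h2 := rr_act_pow_nat n hn (fun k => (k : ℝ) ^ (s - l)) (fun k hk => by
      have : (0 : ℝ) < k := by exact_mod_cast hk
      positivity) h1 l
    convert h2 using 2
    ext k
    rcases Nat.eq_zero_or_pos k with rfl | hk
    · rw [Nat.cast_zero, Real.zero_rpow hs.ne', Real.zero_rpow (by linarith), mul_zero]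
    · have hk' : (0 : ℝ) < k := by exact_mod_cast hk
      rw [← Real.rpow_natCast, ← Real.rpow_add hk']
      congr 1
      ring

/-- the approximating polynomials -/
noncomputable def Q (s : ℝ) (m n : ℕ) : ℝ[X] := act (cf s m) (CN (n + 1))

lemma rr_Q {s : ℝ} (hs : 0 < s) (m n : ℕ) : RR (Q s m n) := by
  have h1 := rr_act_inv_factorial_pow ((rr_rpow (n + 1) (by omega) hs).act_beta) (m - 3)
  rw [act_act, act_act] at h1
  have h2 : Q s m n = act (fun k => (1 / (k.factorial : ℝ)) ^ (m - 3) * beta k * (k : ℝ) ^ s)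
      (CN (n + 1)) := by
    unfold Q
    congr 1
    ext k
    unfold cf
    ring
  rw [h2]
  exact h1

lemma coeff_Q (s : ℝ) (m : ℕ) (hm : 3 ≤ m) (n k : ℕ) :
    (Q s m n).coeff k = (k : ℝ) ^ s / (k.factorial : ℝ) ^ m * wt (n + 1) k := by
  rw [Q, coeff_act, coeff_CN (n + 1) k (by omega), cf_mul s m hm]

lemma hasSum_F (s : ℝ) (m : ℕ) (hm : 1 ≤ m) (z : ℂ) :
    HasSum (fun k : ℕ => (((k : ℝ) ^ s / (k.factorial : ℝ) ^ m : ℝ) : ℂ) * z ^ k) (F s m z) := by
  apply Summable.hasSum
  apply Summable.of_norm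
  refine (coeff_summable s m hm ‖z‖ (norm_nonneg _)).congr (fun k => ?_)
  rw [norm_mul, norm_pow, Complex.norm_real, Real.norm_of_nonneg (by positivity)]

lemma Q_tendsto (s : ℝ) (m : ℕ) (hm : 3 ≤ m) (K : Set ℂ) (hK : IsCompact K) :
    TendstoUniformlyOn (fun n z => aeval z (Q s m n)) (F s m) atTop K := by
  obtain ⟨R, hR0, hR⟩ : ∃ R : ℝ, 0 ≤ R ∧ ∀ z ∈ K, ‖z‖ ≤ R := by
    obtain ⟨R, hR⟩ := hK.isBounded.exists_norm_le
    exact ⟨max R 0, le_max_right _ _, fun z hz => (hR z hz).trans (le_max_left _ _)⟩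
  set b : ℕ → ℝ := fun k => (k : ℝ) ^ s / (k.factorial : ℝ) ^ m * R ^ k with hb
  have hbs : Summable b := coeff_summable s m (by omega) R hR0
  have hb0 : ∀ k, 0 ≤ b k := fun k => by positivity
  have hlim : Tendsto (fun n : ℕ => ∑' k, b k * (1 - wt (n + 1) k)) atTop (nhds 0) := by
    have h1 : Tendsto (fun n : ℕ => ∑' k, b k * (1 - wt (n + 1) k)) atTop (nhds (∑' k, b k * (1 - 1))) := by
      apply tendsto_tsum_of_dominated_convergence hbs
      · intro k
        have := (wt_tendsto k).comp (tendsto_add_atTop_nat 1)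
        exact (this.const_sub 1).const_mul (b k)
      · refine Eventually.of_forall (fun n k => ?_)
        have h1 := wt_nonneg (n + 1) k (by omega)
        have h2 := wt_le_one (n + 1) k (by omega)
        rw [Real.norm_of_nonneg (mul_nonneg (hb0 k) (by linarith))]
        have := hb0 k
        nlinarith
    simpa using h1
  have hbound : ∀ n : ℕ, ∀ z ∈ K, ‖F s m z - aeval z (Q s m n)‖ ≤ ∑' k, b k * (1 - wt (n + 1) k) := by
    intro n z hz
    have h1 := hasSum_F s m (by omega) z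
    have h2 : HasSum (fun k : ℕ => (((k : ℝ) ^ s / (k.factorial : ℝ) ^ m * wt (n + 1) k : ℝ) : ℂ) * z ^ k)
        (aeval z (Q s m n)) := by
      rw [aeval_eq_sum_range]
      have h3 : ∀ k ∉ Finset.range ((Q s m n).natDegree + 1),
          (((k : ℝ) ^ s / (k.factorial : ℝ) ^ m * wt (n + 1) k : ℝ) : ℂ) * z ^ k = 0 := by
        intro k hk
        rw [Finset.mem_range, not_lt] at hk
        rw [← coeff_Q s m hm, coeff_eq_zero_of_natDegree_lt (by omega)]
        simp
      have h4 := hasSum_sum_of_ne_finset_zero (L := SummationFilter.unconditional ℕ) h3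
      convert h4 using 1
      apply Finset.sum_congr rfl
      intro k _
      rw [coeff_Q s m hm, Complex.real_smul]
    have h3 := h1.sub h2
    have hterm : ∀ k : ℕ, ‖(((k : ℝ) ^ s / (k.factorial : ℝ) ^ m : ℝ) : ℂ) * z ^ k -
        (((k : ℝ) ^ s / (k.factorial : ℝ) ^ m * wt (n + 1) k : ℝ) : ℂ) * z ^ k‖ ≤ b k * (1 - wt (n + 1) k) := by
      intro k
      have e : (((k : ℝ) ^ s / (k.factorial : ℝ) ^ m : ℝ) : ℂ) * z ^ k -
        (((k : ℝ) ^ s / (k.factorial : ℝ) ^ m * wt (n + 1) k : ℝ) : ℂ) * z ^ k =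
        (((k : ℝ) ^ s / (k.factorial : ℝ) ^ m * (1 - wt (n + 1) k) : ℝ) : ℂ) * z ^ k := by
        push_cast; ring
      have h4 := wt_le_one (n + 1) k (by omega)
      rw [e, norm_mul, norm_pow, Complex.norm_real, Real.norm_of_nonneg (mul_nonneg (by positivity) (by linarith))]
      have h5 : ‖z‖ ^ k ≤ R ^ k := pow_le_pow_left₀ (norm_nonneg _) (hR z hz) k
      have h6 : 0 ≤ (k : ℝ) ^ s / (k.factorial : ℝ) ^ m * (1 - wt (n + 1) k) :=
        mul_nonneg (by positivity) (by linarith)
      calc (k : ℝ) ^ s / (k.factorial : ℝ) ^ m * (1 - wt (n + 1) k) * ‖z‖ ^ k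
          ≤ (k : ℝ) ^ s / (k.factorial : ℝ) ^ m * (1 - wt (n + 1) k) * R ^ k :=
            mul_le_mul_of_nonneg_left h5 h6
        _ = b k * (1 - wt (n + 1) k) := by rw [hb]; ring
    have hsum : Summable (fun k => b k * (1 - wt (n + 1) k)) := by
      refine Summable.of_nonneg_of_le (fun k => ?_) (fun k => ?_) hbs
      · have h4 := wt_le_one (n + 1) k (by omega)
        exact mul_nonneg (hb0 k) (by linarith)
      · have h4 := wt_nonneg (n + 1) k (by omega)
        have := hb0 k
        nlinarith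
    rw [← h3.tsum_eq]
    exact tsum_of_norm_bounded hsum.hasSum hterm
  rw [Metric.tendstoUniformlyOn_iff]
  intro ε hε
  filter_upwards [hlim.eventually (gt_mem_nhds hε)] with n hn z hz
  rw [dist_eq_norm]
  exact lt_of_le_of_lt (hbound n z hz) hn

/-- **Main theorem.** For every real `s > 0` and every integer `m ≥ 3` the function
`F_{s,m}(x) = ∑ k^s x^k / (k!)^m` belongs to the class `LP⁺`. -/
theorem result (s : ℝ) (hs : 0 < s) (m : ℕ) (hm : 3 ≤ m) : LaguerrePolyaPlus (F s m) := by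
  refine ⟨⟨Q s m, fun n => onlyRealZeros_of_rr (rr_Q hs m n), Q_tendsto s m hm⟩,
    fun k => (k : ℝ) ^ s / (k.factorial : ℝ) ^ m, fun k => by positivity, hasSum_F s m (by omega)⟩

end Pool.Agent.Results.MP_5e2fde_an.ThreeSuffices
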